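import Pool.Agent.X203.Ribe
import Pool.Agent.X203.AutoCont

namespace Pool.Agent.Results.MP_25e654_an.ImageNotBanach

open Filter Topology MeasureTheory TopologicalSpace Pool.Agent.X203.Ribe

/-- The data of the problem.  The subspace `M ⊆ Y` with its Banach norm is given as (the range of)
an injective linear map `ι : M → Y` with `‖ι m‖ ≤ ‖m‖` from a Banach space `M`; `φ : X → Y` is a
Borel map which is linear modulo `M`. -/
structure Data (X Y M : Type*) [NormedAddCommGroup X] [NormedSpace ℝ X] [NormedAddCommGroup Y]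
    [NormedSpace ℝ Y] [NormedAddCommGroup M] [NormedSpace ℝ M] where
  /-- the inclusion of `M` in `Y` -/
  ι : M →ₗ[ℝ] Y
  injective : Function.Injective ι
  norm_le : ∀ m, ‖ι m‖ ≤ ‖m‖
  /-- the Borel map -/
  φ : X → Y
  borel : @Measurable X Y (borel X) (borel Y) φ
  linear_mod : ∀ (a b : ℝ) (x y : X), φ (a • x + b • y) - (a • φ x + b • φ y) ∈ Set.range ι

/-- The set `V = φ(X) + M`. -/
def Data.V {X Y M : Type*} [NormedAddCommGroup X] [NormedSpace ℝ X] [NormedAddCommGroup Y]
    [NormedSpace ℝ Y] [NormedAddCommGroup M] [NormedSpace ℝ M] (D : Data X Y M) : Set Y :=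
  {y | ∃ x m, D.φ x + D.ι m = y}

noncomputable def data : Data X (L × X) L where
  ι := (LinearMap.inl ℝ L X).comp iota.toLinearMap
  injective := by
    intro a b h
    exact iota_injective (Prod.ext_iff.1 h).1
  norm_le := by
    intro m
    have h1 : ((LinearMap.inl ℝ L X).comp iota.toLinearMap) m = (iota m, 0) := rfl
    rw [h1, Prod.norm_def]
    simp only [norm_zero]
    exact max_le (iota_norm m) (norm_nonneg _)
  φ := fun x => (G x, x)
  borel := by
    let : MeasurableSpace X := borel X
    have : BorelSpace X := ⟨rfl⟩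
    let : MeasurableSpace L := borel L
    have : BorelSpace L := ⟨rfl⟩
    have : SeparableSpace X := Pool.Agent.X203.separable_lp_one _
    have : SeparableSpace L := Pool.Agent.X203.separable_lp_one _
    have : SecondCountableTopology X := UniformSpace.secondCountable_of_separable X
    have : SecondCountableTopology L := UniformSpace.secondCountable_of_separable L
    have h1 : Measurable (fun x : X => (G x, x)) := G_measurable.prodMk measurable_id
    have h2 : (Prod.instMeasurableSpace : MeasurableSpace (L × X)) = _root_.borel (L × X) :=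
      Prod.borelSpace.measurable_eq
    rw [← h2]
    exact h1
  linear_mod := by
    intro a b x y
    obtain ⟨m, hm⟩ := G_linear_mod a b x y
    refine ⟨m, ?_⟩
    have h1 : ((LinearMap.inl ℝ L X).comp iota.toLinearMap) m = (iota m, 0) := rfl
    rw [h1, hm]
    ext1
    · simp
    · simp

theorem data_V (y : L × X) : y ∈ data.V ↔ ∃ m, G y.2 + iota m = y.1 := by
  constructor
  · rintro ⟨x, m, rfl⟩
    exact ⟨m, by simp [data]⟩
  · rintro ⟨m, hm⟩
    refine ⟨y.2, m, ?_⟩
    ext1
    · simpa [data] using hm
    · simp [data]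

/-- There are separable Banach spaces `X, Y`, a (separable) Banach space `M` embedded in `Y` with
`‖·‖_Y ≤ ‖·‖_M`, and a Borel map `φ : X → Y`, linear modulo `M`, such that `V = φ(X) + M` carries
no complete norm finer than the norm of `Y`: there is no Banach space `W` with an injective
continuous linear map `κ : W → Y` with range `V`. -/
theorem result : ∃ (X Y M : Type) (_ : NormedAddCommGroup X) (_ : NormedSpace ℝ X)
    (_ : NormedAddCommGroup Y) (_ : NormedSpace ℝ Y) (_ : NormedAddCommGroup M)
    (_ : NormedSpace ℝ M) (D : Data X Y M),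
    CompleteSpace X ∧ CompleteSpace Y ∧ CompleteSpace M ∧
    SeparableSpace X ∧ SeparableSpace Y ∧ SeparableSpace M ∧
    ¬ ∃ (W : Type) (_ : NormedAddCommGroup W) (_ : NormedSpace ℝ W) (_ : CompleteSpace W)
      (κ : W →L[ℝ] Y), Function.Injective κ ∧ Set.range κ = D.V := by
  have hX : SeparableSpace X := Pool.Agent.X203.separable_lp_one _
  have hL : SeparableSpace L := Pool.Agent.X203.separable_lp_one _
  refine ⟨X, L × X, L, inferInstance, inferInstance, inferInstance, inferInstance, inferInstance,
    inferInstance, data, inferInstance, inferInstance, inferInstance, hX, inferInstance, hL, ?_⟩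
  rintro ⟨W, i1, i2, i3, κ, hκ, hr⟩
  let W0 : Submodule ℝ W := LinearMap.ker ((ContinuousLinearMap.fst ℝ L X).comp κ).toLinearMap
  have hW0 : IsClosed (W0 : Set W) := ((ContinuousLinearMap.fst ℝ L X).comp κ).isClosed_ker
  have : CompleteSpace W0 := hW0.completeSpace_coe
  have hmem : ∀ w : W, w ∈ W0 ↔ (κ w).1 = 0 := fun w => Iff.rfl
  let κ0 : W0 →L[ℝ] X := ((ContinuousLinearMap.snd ℝ L X).comp κ).comp W0.subtypeL
  have hκ0 : ∀ w : W0, κ0 w = (κ (w : W)).2 := fun w => rfl
  apply no_banach κ0
  · intro a b h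
    rw [hκ0, hκ0] at h
    apply Subtype.ext
    apply hκ
    ext1
    · rw [(hmem _).1 a.2, (hmem _).1 b.2]
    · exact h
  · intro x hx
    obtain ⟨m, hm⟩ := (mem_range_iota_iff x).2 hx
    have h1 : ((0 : L), x) ∈ data.V := by
      rw [data_V]
      exact ⟨-m, by rw [map_neg, hm]; simp⟩
    rw [← hr] at h1
    obtain ⟨w, hw⟩ := h1
    exact ⟨⟨w, (hmem w).2 (by rw [hw])⟩, by rw [hκ0, hw]⟩
  · intro w
    rw [← mem_range_iota_iff]
    have h1 : κ (w : W) ∈ data.V := by
      rw [← hr]; exact ⟨_, rfl⟩
    rw [data_V] at h1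
    obtain ⟨m, hm⟩ := h1
    rw [(hmem _).1 w.2] at hm
    refine ⟨-m, ?_⟩
    rw [map_neg, hκ0]
    exact (eq_neg_of_add_eq_zero_left hm).symm

end Pool.Agent.Results.MP_25e654_an.ImageNotBanach
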